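import Pool.Agent.Lib_helper41.TK.Defs2
import Pool.Agent.Lib_helper41.TK.W.TA
import Pool.Agent.Lib_helper41.TK.W.TB
import Pool.Agent.Lib_helper41.TK.W.TE
import Pool.Agent.Lib_helper41.TK.W.TF
import Pool.Agent.Lib_helper68.KSLF.ABL
import Pool.Agent.Lib_helper68.KSLF.BPT

/-! TK, block TG: the sum over the Fourier coefficients at a given height. -/

set_option autoImplicit false

namespace Pool.Agent.TK

open Pool.Agent.LEV Pool.Agent.LVB Pool.Agent.KSL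
open Pool.Agent.LK (PQ)
open Pool.Agent.FG61 (mu phi cc ff AA Lam)
open Complex MeasureTheory Filter Topology UpperHalfPlane ModularGroup ProbabilityTheory
open scoped MatrixGroups Modular ENNReal ModularForm ComplexConjugate ContDiff

open Classical in
theorem tg_summ {q z A : ℕ} {a : ℕ → ℝ} (ha : ∀ k, a k ≠ 0 → smooth z k ∧ k ≤ A) {g : ℝ → ℝ}
    {G : ℝ} (hg : Kg g G) {y : ℝ} (hy : 0 < y) :
    Summable (fun m : ℕ => if smooth z m ∧ m.Coprime q then g (m * y) * Ph A a m ^ 2 else 0) := by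
  refine Summable.of_nonneg_of_le (fun n => ?_) (fun n => ?_)
    (BPT_summ (z := z) (A := A) (a := a) ha hg hy)
  · split_ifs
    · exact mul_nonneg (hg.nonneg _) (sq_nonneg _)
    · exact le_rfl
  · by_cases h : smooth z n
    · rw [if_pos h]
      split_ifs
      · exact le_rfl
      · exact mul_nonneg (hg.nonneg _) (sq_nonneg _)
    · rw [if_neg h, if_neg (fun h' => h h'.1)]

open Classical in
/-- partial summation -/
theorem tg_common {q z A : ℕ} {a : ℕ → ℝ} (ha : ∀ k, a k ≠ 0 → smooth z k ∧ k ≤ A) {g : ℝ → ℝ}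
    {G : ℝ} (hg : Kg g G) {y : ℝ} (hy : 0 < y) (T : ℕ → ℝ) {B c : ℝ} (hB : 0 ≤ B) (hc : 0 ≤ c)
    (h : ∀ X : ℕ, ∑ m ∈ (Finset.Icc 1 X).filter (fun m => m.Coprime q), T m ^ 2 ≤ B * X +
      ∑ m ∈ (Finset.Icc 1 X).filter (fun m => smooth z m ∧ m.Coprime q), Ph A a m ^ 2 + c) :
    Summable (fun m : ℕ => if (m + 1).Coprime q then g ((m + 1) * y) * T (m + 1) ^ 2 else 0) ∧
    ∑' m : ℕ, (if (m + 1).Coprime q then g ((m + 1) * y) * T (m + 1) ^ 2 else 0) ≤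
      B / y * (∫ u in Set.Ioi (0 : ℝ), g u) +
      (∑' m : ℕ, if smooth z m ∧ m.Coprime q then g (m * y) * Ph A a m ^ 2 else 0) +
      c * g y := by
  set t : ℕ → ℝ := fun n => if (n + 1).Coprime q then T (n + 1) ^ 2 else 0 with ht
  set e : ℕ → ℝ := fun n => if smooth z (n + 1) ∧ (n + 1).Coprime q then Ph A a (n + 1) ^ 2
    else 0 with he
  have hsm := tg_summ (q := q) (z := z) (A := A) (a := a) ha hg hy
  have hmain : ∀ X : ℕ, ∑ n ∈ Finset.range X, t n ≤ B * X + ∑ n ∈ Finset.range X, e n + c := by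
    intro X
    have h1 : ∑ m ∈ (Finset.Icc 1 X).filter (fun m => m.Coprime q), T m ^ 2 =
        ∑ n ∈ Finset.range X, t n := by
      rw [Finset.sum_filter, BPT_icc]
    have h2 : ∑ m ∈ (Finset.Icc 1 X).filter (fun m => smooth z m ∧ m.Coprime q), Ph A a m ^ 2 =
        ∑ n ∈ Finset.range X, e n := by
      rw [Finset.sum_filter, BPT_icc]
    have h3 := h X
    rw [h1, h2] at h3
    exact h3
  have hes : (fun n : ℕ => g ((n + 1) * y) * e n) = fun n : ℕ =>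
      (fun n : ℕ => if smooth z n ∧ n.Coprime q then g (n * y) * Ph A a n ^ 2 else 0)
        (n + 1) := by
    funext n
    simp only [he]
    split_ifs
    · push_cast; rfl
    · ring
  have hts : (fun m : ℕ => if (m + 1).Coprime q then g ((m + 1) * y) * T (m + 1) ^ 2 else 0) =
      fun n : ℕ => g ((n + 1) * y) * t n := by
    funext n
    simp only [ht]
    split_ifs <;> ring
  have hs1 : Summable (fun n : ℕ => g ((n + 1) * y) * e n) := by
    rw [hes]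
    exact (summable_nat_add_iff 1).2 hsm
  have hab := abel_anti hg hy (a := t) (e := e)
    (fun n => by simp only [ht]; split_ifs <;> positivity)
    (fun n => by simp only [he]; split_ifs <;> positivity)
    (B := B) (c := c) hB hc hmain hs1
  rw [hts]
  refine ⟨hab.1, hab.2.trans ?_⟩
  have e4 : ∑' n : ℕ, g ((n + 1) * y) * e n ≤
      ∑' n : ℕ, if smooth z n ∧ n.Coprime q then g (n * y) * Ph A a n ^ 2 else 0 := by
    rw [hes, hsm.tsum_eq_zero_add]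
    have : (0 : ℝ) ≤ if smooth z 0 ∧ (0 : ℕ).Coprime q then g ((0 : ℕ) * y) * Ph A a 0 ^ 2
        else 0 := by
      split_ifs
      · exact mul_nonneg (hg.nonneg _) (sq_nonneg _)
      · exact le_rfl
    linarith
  linarith

open Classical in
theorem tg_cn0 (q z A : ℕ) (a : ℕ → ℝ) : 0 ≤ cnC q z A a := by
  unfold cnC
  refine tsum_nonneg fun m => ?_
  split_ifs <;> positivity

theorem tg_wsupp {q : ℕ} {δ ε : ℝ} {n : ℕ} {a : ℕ → ℝ} (hSh : ShC q (zz n) (KA ε n) a) :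
    ∀ d, 1 ≤ d → wwC q δ ε n a d ≠ 0 → d.Coprime q :=
  fun _ hd0 hd => (wAC_supp hSh.sup hd0 hd).2.2

/-- `tt_diagC` with a condition on `w` at the positive integers only -/
theorem tg_diag {q : ℕ} (hq : 1 ≤ q) (Q : ℕ) (w : ℕ → ℝ)
    (hw : ∀ d, 1 ≤ d → w d ≠ 0 → d.Coprime q) (D : ℝ) (hD : ⌊D⌋₊ ≤ Q) (X : ℕ) :
    |∑ n ∈ (Finset.Icc 1 X).filter (fun n => n.Coprime q), TT Q w D n ^ 2 -
        ∑ n ∈ (Finset.Icc 1 X).filter (fun n => n.Coprime q), WW Q w n ^ 2 +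
        X * (phi q / q * GD w D)| ≤
      3 * q.divisors.card * (∑ d ∈ Finset.Icc 1 Q, |w d| * ∑ e ∈ d.divisors, (e : ℝ)) *
        ∑ d ∈ Finset.Icc 1 ⌊D⌋₊, |w d| * ∑ e ∈ d.divisors, (e : ℝ) := by
  obtain ⟨w', hw'⟩ : ∃ w' : ℕ → ℝ, w' = fun d => if d = 0 then 0 else w d := ⟨_, rfl⟩
  have e : ∀ d, 1 ≤ d → w' d = w d := fun d hd => by
    rw [hw']
    exact if_neg (by omega)
  have h := tt_diagC hq Q w' (fun d hd => by
    by_cases h0 : d = 0
    · rw [hw'] at hd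
      simp only [h0, if_true] at hd
      exact absurd rfl hd
    · have h1 : 1 ≤ d := by omega
      rw [e d h1] at hd
      exact hw d h1 hd) D hD X
  have hT : ∀ n, TT Q w' D n = TT Q w D n := fun n => by
    unfold TT
    refine Finset.sum_congr rfl fun c hc => ?_
    rw [e c (Finset.mem_Icc.1 (Finset.mem_filter.1 hc).1).1]
  have hW : ∀ n, WW Q w' n = WW Q w n := fun n => by
    unfold WW
    refine Finset.sum_congr rfl fun c hc => ?_
    rw [e c (Finset.mem_Icc.1 hc).1]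
  have hG : GD w' D = GD w D := by
    unfold GD
    refine Finset.sum_congr rfl fun c hc => ?_
    rw [e c (Finset.mem_Icc.1 hc).1]
  have hS : ∀ Y : ℕ, ∑ d ∈ Finset.Icc 1 Y, |w' d| * ∑ e ∈ d.divisors, (e : ℝ) =
      ∑ d ∈ Finset.Icc 1 Y, |w d| * ∑ e ∈ d.divisors, (e : ℝ) := fun Y => by
    refine Finset.sum_congr rfl fun c hc => ?_
    rw [e c (Finset.mem_Icc.1 hc).1]
  simp only [hT, hW, hG, hS] at h
  exact h

open Classical in
/-- the sum over the Fourier coefficients at a given height -/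
theorem bulk_pointC_pr {δ : ℝ} (h0 : 0 < δ) (h1 : δ < 1 / 4) {ε : ℝ} (hε : 0 < ε) {g : ℝ → ℝ}
    {G : ℝ} (hg : Kg g G) {ε₂ : ℝ} (h2 : 0 < ε₂) (h3 : ε₂ ≤ δ / 40) : ∃ N₀ : ℕ, ∀ n : ℕ,
    N₀ ≤ n → ∀ q : ℕ, 1 ≤ q → q ≤ KA ε₂ n → ∀ a : ℕ → ℝ, ShC q (zz n) (KA ε₂ n) a →
    ∀ y : ℝ, 0 < y → y < 2 / Real.sqrt n →
      Summable (fun m : ℕ => if (m + 1).Coprime q then g ((m + 1) * y) *
        TT (QQ δ ε₂ n) (wwC q δ ε₂ n a) (2 / (y * Real.sqrt n)) (m + 1) ^ 2 else 0) ∧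
      hN q δ ε₂ n a g y ≤
      max ((1 + ε) * cnC q (zz n) (KA ε₂ n) a / Real.log (MM δ n) -
          phi q / q * GD (wwC q δ ε₂ n a) (2 / (y * Real.sqrt n))) 0 / y *
            (∫ u in Set.Ioi (0 : ℝ), g u) +
        (∑' m : ℕ, if smooth (zz n) m ∧ m.Coprime q then g (m * y) * Ph (KA ε₂ n) a m ^ 2
          else 0) +
        (n : ℝ) ^ (1 / 2 - δ / 2) * (2 / (y * Real.sqrt n)) := by
  obtain ⟨N₁, hN₁⟩ := ww_sqC h0 h1 hε
  obtain ⟨N₂, hN₂⟩ := ww_boundC h0 h1 h2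
  obtain ⟨N₃, hN₃⟩ := BPT_pow (c := δ / 5) (by positivity) (6 * G)
  refine ⟨max (max N₁ N₂) (max N₃ 4), fun N hN q hq hqA a hSh y hy hy2 => ?_⟩
  have hsup : ∀ k, a k ≠ 0 → smooth (zz N) k ∧ k ≤ KA ε₂ N := fun k hk =>
    ⟨(hSh.sup k hk).1, (hSh.sup k hk).2.1⟩
  have hw1 := hN₁ N (by omega) q hq
  have hw2 := hN₂ N (by omega) q hq a hSh
  have hw3 := hN₃ N (by omega)
  have hN4 : 4 ≤ N := by omega
  have hN0 : (0 : ℝ) < N := by exact_mod_cast (by omega : 0 < N)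
  have hN1 : (1 : ℝ) ≤ N := by exact_mod_cast (by omega : 1 ≤ N)
  have hsN : 0 < Real.sqrt N := Real.sqrt_pos.2 hN0
  obtain ⟨hQ1, hQ2⟩ := BPT_Q (δ := δ) (ε₂ := ε₂) hN4 (by linarith)
  have hA1 : (KA ε₂ N : ℝ) ≤ (N : ℝ) ^ ε₂ := Nat.floor_le (by positivity)
  have hwq := tg_wsupp (δ := δ) hSh
  rw [TK.hN]
  set z := zz N with hz
  set A := KA ε₂ N with hA
  set Q := QQ δ ε₂ N with hQ
  set w := wwC q δ ε₂ N a with hw
  set D := 2 / (y * Real.sqrt N) with hD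
  have hD1 : 1 < D := by
    rw [hD, lt_div_iff₀ (by positivity), one_mul]
    rwa [lt_div_iff₀ hsN] at hy2
  have hI0 := BPT_int0 hg
  have hG0 : 0 ≤ G := (hg.nonneg 0).trans (hg.bdd 0)
  have hsm0 : 0 ≤ ∑' n : ℕ, if smooth z n ∧ n.Coprime q then g (n * y) * Ph A a n ^ 2
      else 0 := by
    refine tsum_nonneg fun n => ?_
    split_ifs
    · exact mul_nonneg (hg.nonneg _) (sq_nonneg _)
    · exact le_rfl
  have hND : 0 ≤ (N : ℝ) ^ (1 / 2 - δ / 2) * D := by positivity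
  by_cases hDQ : Q < ⌊D⌋₊
  · have hDQ' : (Q : ℝ) ≤ D :=
      (by exact_mod_cast hDQ.le : (Q : ℝ) ≤ (⌊D⌋₊ : ℝ)).trans (Nat.floor_le (by linarith))
    have e1 : (fun m : ℕ => if (m + 1).Coprime q then g ((m + 1) * y) *
        TT Q w D (m + 1) ^ 2 else 0) = fun _ => 0 := by
      funext n
      rw [BPT_tt0 hDQ']
      split_ifs <;> ring
    rw [e1]
    refine ⟨summable_zero, ?_⟩
    rw [tsum_zero]
    have : 0 ≤ max ((1 + ε) * cnC q z A a / Real.log (MM δ N) - phi q / q * GD w D) 0 / y *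
        (∫ u in Set.Ioi (0 : ℝ), g u) :=
      mul_nonneg (div_nonneg (le_max_right _ _) hy.le) hI0
    linarith
  · have hDQ' : ⌊D⌋₊ ≤ Q := not_lt.1 hDQ
    set B := max ((1 + ε) * cnC q z A a / Real.log (MM δ N) - phi q / q * GD w D) 0 with hB
    set c := 3 * ((N : ℝ) ^ ε₂) * ((N : ℝ) ^ (5 * ε₂) * Q) * ((N : ℝ) ^ (5 * ε₂) * D) with hc
    have hc0 : 0 ≤ c := by positivity
    have hS1 : ∑ q ∈ Finset.Icc 1 Q, |w q| * ∑ d ∈ q.divisors, (d : ℝ) ≤
        (N : ℝ) ^ (5 * ε₂) * Q := hw2.2 Q hQ2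
    have hS2 : ∑ q ∈ Finset.Icc 1 ⌊D⌋₊, |w q| * ∑ d ∈ q.divisors, (d : ℝ) ≤
        (N : ℝ) ^ (5 * ε₂) * D :=
      (hw2.2 ⌊D⌋₊ (hDQ'.trans hQ2)).trans (mul_le_mul_of_nonneg_left
        (Nat.floor_le (by linarith)) (by positivity))
    have hS10 : 0 ≤ ∑ q ∈ Finset.Icc 1 Q, |w q| * ∑ d ∈ q.divisors, (d : ℝ) :=
      Finset.sum_nonneg fun q _ => mul_nonneg (abs_nonneg _)
        (Finset.sum_nonneg fun d _ => Nat.cast_nonneg _)
    have hS20 : 0 ≤ ∑ q ∈ Finset.Icc 1 ⌊D⌋₊, |w q| * ∑ d ∈ q.divisors, (d : ℝ) :=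
      Finset.sum_nonneg fun q _ => mul_nonneg (abs_nonneg _)
        (Finset.sum_nonneg fun d _ => Nat.cast_nonneg _)
    have htau : (q.divisors.card : ℝ) ≤ (N : ℝ) ^ ε₂ := by
      have t1 : q.divisors.card ≤ q := Nat.card_divisors_le_self q
      have t2 : (q.divisors.card : ℝ) ≤ (A : ℝ) := by exact_mod_cast t1.trans hqA
      exact t2.trans hA1
    have hmain : ∀ X : ℕ, ∑ m ∈ (Finset.Icc 1 X).filter (fun m => m.Coprime q),
        TT Q w D m ^ 2 ≤ B * X +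
        ∑ m ∈ (Finset.Icc 1 X).filter (fun m => smooth z m ∧ m.Coprime q), Ph A a m ^ 2 +
          c := by
      intro X
      have hd := (abs_le.1 (tg_diag hq Q w hwq D hDQ' X)).2
      have hs := hw1 A a hSh.sup X
      have hs' : ∑ m ∈ (Finset.Icc 1 X).filter (fun m => m.Coprime q), WW Q w m ^ 2 ≤
          ∑ m ∈ (Finset.Icc 1 X).filter (fun m => smooth z m ∧ m.Coprime q), Ph A a m ^ 2 +
          (1 + ε) * X * cnC q z A a / Real.log (MM δ N) := hs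
      have hprod : 3 * q.divisors.card *
          (∑ q ∈ Finset.Icc 1 Q, |w q| * ∑ d ∈ q.divisors, (d : ℝ)) *
          ∑ q ∈ Finset.Icc 1 ⌊D⌋₊, |w q| * ∑ d ∈ q.divisors, (d : ℝ) ≤ c := by
        rw [hc]
        refine mul_le_mul (mul_le_mul (mul_le_mul_of_nonneg_left htau (by norm_num)) hS1 hS10
          (by positivity)) hS2 hS20 (by positivity)
      have hBX : X * ((1 + ε) * cnC q z A a / Real.log (MM δ N) - phi q / q * GD w D) ≤
          B * X := by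
        rw [mul_comm]
        exact mul_le_mul_of_nonneg_right (le_max_left _ _) (Nat.cast_nonneg _)
      have e3 : (X : ℝ) * ((1 + ε) * cnC q z A a / Real.log (MM δ N) - phi q / q * GD w D) =
        (1 + ε) * X * cnC q z A a / Real.log (MM δ N) - X * (phi q / q * GD w D) := by ring
      linarith
    have hab := tg_common (q := q) (z := z) (A := A) (a := a) hsup hg hy
      (fun m => TT Q w D m) (B := B) (c := c) (le_max_right _ _) hc0 hmain
    refine ⟨hab.1, hab.2.trans ?_⟩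
    have e5 : c * g y ≤ (N : ℝ) ^ (1 / 2 - δ / 2) * D := by
      calc c * g y ≤ c * G := mul_le_mul_of_nonneg_left (hg.bdd y) hc0
        _ = 3 * G * ((N : ℝ) ^ ε₂ * (N : ℝ) ^ (5 * ε₂) * (N : ℝ) ^ (5 * ε₂)) * Q * D := by
            rw [hc]; ring
        _ ≤ 3 * G * ((N : ℝ) ^ ε₂ * (N : ℝ) ^ (5 * ε₂) * (N : ℝ) ^ (5 * ε₂)) *
            (2 * (N : ℝ) ^ (1 / 2 - δ + ε₂)) * D := by
            refine mul_le_mul_of_nonneg_right (mul_le_mul_of_nonneg_left hQ1 (by positivity))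
              (by linarith)
        _ = 6 * G * (N : ℝ) ^ (1 / 2 - δ + 12 * ε₂) * D := by
            have : (N : ℝ) ^ ε₂ * (N : ℝ) ^ (5 * ε₂) * (N : ℝ) ^ (5 * ε₂) *
                (N : ℝ) ^ (1 / 2 - δ + ε₂) = (N : ℝ) ^ (1 / 2 - δ + 12 * ε₂) := by
              rw [← Real.rpow_add hN0, ← Real.rpow_add hN0, ← Real.rpow_add hN0]; congr 1; ring
            rw [← this]; ring
        _ ≤ (N : ℝ) ^ (δ / 5) * (N : ℝ) ^ (1 / 2 - δ + 12 * ε₂) * D := by
            refine mul_le_mul_of_nonneg_right (mul_le_mul_of_nonneg_right hw3 (by positivity))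
              (by linarith)
        _ = (N : ℝ) ^ (δ / 5 + (1 / 2 - δ + 12 * ε₂)) * D := by
            rw [Real.rpow_add hN0 (δ / 5)]
        _ ≤ (N : ℝ) ^ (1 / 2 - δ / 2) * D := by
            refine mul_le_mul_of_nonneg_right (Real.rpow_le_rpow_of_exponent_le hN1 (by linarith))
              (by linarith)
    linarith

open Classical in
/-- the same above the isometric circles -/
theorem strip_pointC_pr {δ : ℝ} (h0 : 0 < δ) (h1 : δ < 1 / 4) {ε : ℝ} (hε : 0 < ε) {g : ℝ → ℝ}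
    {G : ℝ} (hg : Kg g G) {ε₂ : ℝ} (h2 : 0 < ε₂) : ∃ N₀ : ℕ, ∀ n : ℕ,
    N₀ ≤ n → ∀ q : ℕ, 1 ≤ q → ∀ a : ℕ → ℝ, ShC q (zz n) (KA ε₂ n) a → ∀ y : ℝ, 0 < y →
      Summable (fun m : ℕ => if smooth (zz n) m ∧ m.Coprime q then
        g (m * y) * Ph (KA ε₂ n) a m ^ 2 else 0) ∧
      (2 / Real.sqrt n < y →
        Summable (fun m : ℕ => if (m + 1).Coprime q then g ((m + 1) * y) *
          TT (QQ δ ε₂ n) (wwC q δ ε₂ n a) (2 / (y * Real.sqrt n)) (m + 1) ^ 2 else 0) ∧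
        hN q δ ε₂ n a g y ≤
          (1 + ε) * cnC q (zz n) (KA ε₂ n) a / Real.log (MM δ n) / y *
            (∫ u in Set.Ioi (0 : ℝ), g u) +
          ∑' m : ℕ, if smooth (zz n) m ∧ m.Coprime q then g (m * y) * Ph (KA ε₂ n) a m ^ 2
            else 0) := by
  obtain ⟨N₁, hN₁⟩ := ww_sqC h0 h1 hε
  refine ⟨max N₁ 1, fun N hN q hq a hSh y hy => ?_⟩
  have hsup : ∀ k, a k ≠ 0 → smooth (zz N) k ∧ k ≤ KA ε₂ N := fun k hk =>
    ⟨(hSh.sup k hk).1, (hSh.sup k hk).2.1⟩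
  refine ⟨tg_summ hsup hg hy, fun hy2 => ?_⟩
  have hw1 := hN₁ N (by omega) q hq (KA ε₂ N) a hSh.sup
  have hN0 : (0 : ℝ) < N := by exact_mod_cast (by omega : 0 < N)
  have hsN : 0 < Real.sqrt N := Real.sqrt_pos.2 hN0
  rw [TK.hN]
  set z := zz N with hz
  set A := KA ε₂ N with hA
  set w := wwC q δ ε₂ N a with hw
  have hD1 : 2 / (y * Real.sqrt N) < 1 := by
    rw [div_lt_one (by positivity)]
    rwa [div_lt_iff₀ hsN] at hy2
  set D := 2 / (y * Real.sqrt N) with hD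
  have hTW : ∀ m : ℕ, TT (QQ δ ε₂ N) w D m = WW (QQ δ ε₂ N) w m := by
    intro m
    unfold TT WW
    rw [Finset.filter_true_of_mem]
    intro c hc
    have : (1 : ℝ) ≤ c := by exact_mod_cast (Finset.mem_Icc.1 hc).1
    linarith
  have hB0 : 0 ≤ (1 + ε) * cnC q z A a / Real.log (MM δ N) :=
    div_nonneg (mul_nonneg (by linarith) (tg_cn0 q z A a)) (Real.log_natCast_nonneg _)
  have hmain : ∀ X : ℕ, ∑ m ∈ (Finset.Icc 1 X).filter (fun m => m.Coprime q),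
      TT (QQ δ ε₂ N) w D m ^ 2 ≤ (1 + ε) * cnC q z A a / Real.log (MM δ N) * X +
      ∑ m ∈ (Finset.Icc 1 X).filter (fun m => smooth z m ∧ m.Coprime q), Ph A a m ^ 2 + 0 := by
    intro X
    have h4 : ∑ m ∈ (Finset.Icc 1 X).filter (fun m => m.Coprime q),
        WW (QQ δ ε₂ N) w m ^ 2 ≤
        ∑ m ∈ (Finset.Icc 1 X).filter (fun m => smooth z m ∧ m.Coprime q), Ph A a m ^ 2 +
        (1 + ε) * X * cnC q z A a / Real.log (MM δ N) := hw1 X
    simp only [hTW]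
    have e3 : (1 + ε) * cnC q z A a / Real.log (MM δ N) * X =
      (1 + ε) * X * cnC q z A a / Real.log (MM δ N) := by ring
    linarith
  have hab := tg_common (q := q) (z := z) (A := A) (a := a) hsup hg hy
    (fun m => TT (QQ δ ε₂ N) w D m) hB0 le_rfl hmain
  refine ⟨hab.1, hab.2.trans ?_⟩
  linarith

theorem bulk_pointC : type_of% @bulk_pointC_pr := @bulk_pointC_pr
theorem strip_pointC : type_of% @strip_pointC_pr := @strip_pointC_pr

end Pool.Agent.TK
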